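import Pool.Agent.W42.RG.Defs

set_option autoImplicit false

/-!
# Functions orthogonal to the invariant sets are limits of coboundaries
-/

namespace Pool.Agent.W368.LX.DENS

open Filter Topology MeasureTheory Pool.Agent.W42.RN Pool.Agent.W42.RL Pool.Agent.W42.RG

/-- the sigma algebra of the sets which are invariant up to null sets -/
@[reducible] def mI {X : Type} [MeasurableSpace X] {ι : Type} (μ : Measure X) (S : ι → X → X)
    (hS : ∀ i, MeasurePreserving (S i) μ μ) : MeasurableSpace X where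
  MeasurableSet' B := MeasurableSet B ∧ ∀ i, S i ⁻¹' B =ᵐ[μ] B
  measurableSet_empty := ⟨MeasurableSet.empty, fun i => by
    rw [Set.preimage_empty]
    exact Filter.EventuallyEq.rfl⟩
  measurableSet_compl := fun B hB => ⟨hB.1.compl, fun i => by
    rw [Set.preimage_compl]
    exact (hB.2 i).compl⟩
  measurableSet_iUnion := fun f hf => ⟨MeasurableSet.iUnion fun n => (hf n).1, fun i => by
    rw [Set.preimage_iUnion]
    exact Filter.EventuallyEq.countable_iUnion fun n => (hf n).2 i⟩

/-- functions with zero integrals over the sets of a sigma algebra are orthogonal to the functions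
measurable with respect to it -/
theorem orth {X : Type} (m : MeasurableSpace X) [mX : MeasurableSpace X] (μ : Measure X)
    [IsProbabilityMeasure μ] (hm : m ≤ mX) (f : X → ℂ) (hf : Bd f)
    (h0 : ∀ B : Set X, MeasurableSet[m] B → ∫ p in B, f p ∂μ = 0)
    (w : X → ℂ) (hw : Measurable[m] w) (hi : Integrable w μ) :
    ∫ p, f p * (starRingEnd ℂ) (w p) ∂μ = 0 := by
  have hsimple : ∀ s : @SimpleFunc X m ℂ, ∫ p, f p * (starRingEnd ℂ) (s p) ∂μ = 0 := by
    intro s
    have key : ∀ p, f p * (starRingEnd ℂ) (s p) =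
        ∑ c ∈ @SimpleFunc.range X ℂ m s, (s ⁻¹' {c}).indicator (fun p => f p * (starRingEnd ℂ) c) p := by
      intro p
      rw [Finset.sum_eq_single (s p)]
      · rw [Set.indicator_of_mem (by simp)]
      · intro b _ hb
        rw [Set.indicator_of_notMem]
        intro h
        exact hb (by simpa using h.symm)
      · intro h
        exact absurd (@SimpleFunc.mem_range_self X ℂ m s p) h
    simp_rw [key]
    rw [integral_finsetSum]
    · refine Finset.sum_eq_zero fun c _ => ?_
      have hB : MeasurableSet[m] (s ⁻¹' {c}) := @SimpleFunc.measurableSet_fiber X ℂ m s c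
      rw [integral_indicator (hm _ hB), integral_mul_const, h0 _ hB, zero_mul]
    · intro c _
      exact (hf.int.mul_const _).indicator (hm _ (@SimpleFunc.measurableSet_fiber X ℂ m s c))
  let sn : ℕ → @SimpleFunc X m ℂ := fun n =>
    @SimpleFunc.approxOn ℂ X _ _ _ m w hw Set.univ 0 (Set.mem_univ _) _ n
  have hlim : Tendsto (fun n => ∫ p, f p * (starRingEnd ℂ) (sn n p) ∂μ) atTop
      (𝓝 (∫ p, f p * (starRingEnd ℂ) (w p) ∂μ)) := by
    obtain ⟨C, hC⟩ := hf.bdd
    apply tendsto_integral_of_dominated_convergence (fun p => C * (‖w p‖ + ‖w p‖))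
    · intro n
      have h1 : Measurable (sn n : X → ℂ) := (@SimpleFunc.measurable X ℂ m _ (sn n)).mono hm le_rfl
      exact (hf.meas.mul (Complex.continuous_conj.measurable.comp h1)).aestronglyMeasurable
    · exact (hi.norm.add hi.norm).const_mul C
    · intro n
      refine Eventually.of_forall fun p => ?_
      rw [norm_mul, RCLike.norm_conj]
      have h1 : ‖sn n p‖ ≤ ‖w p‖ + ‖w p‖ :=
        @SimpleFunc.norm_approxOn_zero_le X ℂ m _ _ _ w hw Set.univ (Set.mem_univ _) _ p n
      exact mul_le_mul (hC p) h1 (norm_nonneg _) ((norm_nonneg _).trans (hC p))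
    · refine Eventually.of_forall fun p => ?_
      have h1 : Tendsto (fun n => sn n p) atTop (𝓝 (w p)) :=
        @SimpleFunc.tendsto_approxOn ℂ X _ _ _ m w hw Set.univ 0 (Set.mem_univ _) _ p
          (by simp)
      exact ((Complex.continuous_conj.tendsto _).comp h1).const_mul _
  simp_rw [hsimple] at hlim
  exact (tendsto_nhds_unique tendsto_const_nhds hlim).symm

theorem t_DENS : S_DENS := by
  intro X _ ι μ _ S hS f hf hf0 ε hε
  let U : ι → Lp ℂ 2 μ →ₗᵢ[ℂ] Lp ℂ 2 μ := fun i => Lp.compMeasurePreservingₗᵢ ℂ (S i) (hS i)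
  have U_coe : ∀ i (g : Lp ℂ 2 μ), U i g =ᵐ[μ] fun p => g (S i p) :=
    fun i g => Lp.coeFn_compMeasurePreserving g (hS i)
  let gen : Set (Lp ℂ 2 μ) := {v | ∃ (i : ι) (h : X → ℂ) (hh : Bd h), v = toL hh - U i (toL hh)}
  let K : Submodule ℂ (Lp ℂ 2 μ) := Submodule.span ℂ gen
  have hmem : toL hf ∈ K.topologicalClosure := by
    rw [← Submodule.orthogonal_orthogonal_eq_closure, Submodule.mem_orthogonal]
    intro w hw
    rw [Submodule.mem_orthogonal] at hw
    have h1 : ∀ i (h : Lp ℂ 2 μ), inner ℂ (h - U i h) w = 0 := by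
      intro i h
      refine Lp.induction (by norm_num) (motive := fun h => inner ℂ (h - U i h) w = 0) ?_ ?_ ?_ h
      · intro c s hs hμ
        have hb : Bd (s.indicator fun _ => c) := by
          refine ⟨measurable_const.indicator hs, ‖c‖, fun p => ?_⟩
          by_cases hp : p ∈ s
          · rw [Set.indicator_of_mem hp]
          · rw [Set.indicator_of_notMem hp, norm_zero]; exact norm_nonneg _
        have e : (Lp.simpleFunc.indicatorConst 2 hs hμ.ne c : Lp ℂ 2 μ) = toL hb := by
          apply Lp.ext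
          rw [Lp.simpleFunc.coe_indicatorConst]
          exact indicatorConstLp_coeFn.trans (toL_coe hb).symm
        show inner ℂ ((Lp.simpleFunc.indicatorConst 2 hs hμ.ne c : Lp ℂ 2 μ) -
          U i (Lp.simpleFunc.indicatorConst 2 hs hμ.ne c : Lp ℂ 2 μ)) w = 0
        rw [e]
        exact hw _ (Submodule.subset_span ⟨i, _, hb, rfl⟩)
      · intro f1 g1 hf1 hg1 _ h2 h3
        show inner ℂ (hf1.toLp f1 + hg1.toLp g1 - U i (hf1.toLp f1 + hg1.toLp g1)) w = 0
        rw [map_add, add_sub_add_comm, inner_add_left, h2, h3, add_zero]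
      · exact isClosed_eq (by fun_prop) continuous_const
    have h2 : ∀ i, U i w = w := by
      intro i
      have h3 := h1 i w
      rw [inner_sub_left, sub_eq_zero] at h3
      have h4 : ‖U i w - w‖ ^ 2 = 0 := by
        have h5 := @norm_sub_sq ℂ _ _ _ _ (U i w) w
        rw [← h3, (U i).norm_map] at h5
        have h6 := inner_self_eq_norm_sq (𝕜 := ℂ) w
        rw [h6] at h5
        linarith
      have h7 : ‖U i w - w‖ = 0 := by
        rcases pow_eq_zero_iff (two_ne_zero) |>.1 h4 with h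
        exact h
      exact sub_eq_zero.1 (norm_eq_zero.1 h7)
    have hwm : Measurable (w : X → ℂ) := (Lp.stronglyMeasurable w).measurable
    have h3 : ∀ i, (fun p => w (S i p)) =ᵐ[μ] w := by
      intro i
      have := U_coe i w
      rw [h2 i] at this
      exact this.symm
    have hwI : Measurable[mI μ S hS] (w : X → ℂ) := by
      intro O hO
      refine ⟨hwm hO, fun i => ?_⟩
      filter_upwards [h3 i] with p hp
      apply propext
      show w (S i p) ∈ O ↔ w p ∈ O
      rw [hp]
    have h4 := orth (mI μ S hS) μ (fun B hB => hB.1) f hf (fun B hB => hf0 B hB.1 hB.2) w hwI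
      ((Lp.memLp w).integrable (by norm_num))
    rw [inner_int, ← h4]
    refine integral_congr_ae ?_
    filter_upwards [toL_coe (μ := μ) hf] with p hp
    rw [hp]
  have hmem' : toL hf ∈ closure (K : Set (Lp ℂ 2 μ)) := by
    rw [← Submodule.topologicalClosure_coe]
    exact hmem
  obtain ⟨g, hg, hgε⟩ := Metric.mem_closure_iff.1 hmem' ε hε
  have hrep : ∃ g0 ∈ Submodule.span ℂ {g : X → ℂ | ∃ (i : ι) (h : X → ℂ), Bd h ∧
      g = fun p => h p - h (S i p)}, Bd g0 ∧ g =ᵐ[μ] g0 := by
    refine Submodule.span_induction (p := fun (g : Lp ℂ 2 μ) _ => ∃ g0 ∈ Submodule.span ℂ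
      {g : X → ℂ | ∃ (i : ι) (h : X → ℂ), Bd h ∧ g = fun p => h p - h (S i p)}, Bd g0 ∧
      g =ᵐ[μ] g0) ?_ ?_ ?_ ?_ hg
    · rintro v ⟨i, h, hh, rfl⟩
      refine ⟨fun p => h p - h (S i p), Submodule.subset_span ⟨i, h, hh, rfl⟩,
        hh.sub (hh.comp (hS i).measurable), ?_⟩
      have g1 := (hS i).quasiMeasurePreserving.ae_eq_comp (toL_coe (μ := μ) hh)
      filter_upwards [Lp.coeFn_sub (toL hh) (U i (toL hh)), toL_coe (μ := μ) hh,
        U_coe i (toL hh), g1] with p e1 e2 e3 e4
      rw [e1, Pi.sub_apply, e2, e3]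
      simp only [Function.comp_apply] at e4
      rw [e4]
    · exact ⟨0, Submodule.zero_mem _, Bd.const 0, Lp.coeFn_zero _ _ _⟩
    · rintro x y _ _ ⟨x0, hx0, hx1, hx2⟩ ⟨y0, hy0, hy1, hy2⟩
      refine ⟨x0 + y0, Submodule.add_mem _ hx0 hy0, hx1.add hy1, ?_⟩
      filter_upwards [Lp.coeFn_add x y, hx2, hy2] with p e1 e2 e3
      rw [e1, Pi.add_apply, Pi.add_apply, e2, e3]
    · rintro c x _ ⟨x0, hx0, hx1, hx2⟩
      refine ⟨c • x0, Submodule.smul_mem _ c hx0, hx1.smul c, ?_⟩
      filter_upwards [Lp.coeFn_smul c x, hx2] with p e1 e2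
      rw [e1, Pi.smul_apply, Pi.smul_apply, e2]
  obtain ⟨g0, h1, h2, h3⟩ := hrep
  refine ⟨g0, h1, h2, ?_⟩
  have hd : Bd fun p => f p - g0 p := hf.sub h2
  have h4 : ‖toL hf - g‖ ^ 2 = ∫ p, ‖f p - g0 p‖ ^ 2 ∂μ := by
    rw [norm_sq_int]
    refine integral_congr_ae ?_
    filter_upwards [Lp.coeFn_sub (toL hf) g, toL_coe (μ := μ) hf, h3] with p e1 e2 e3
    rw [e1, Pi.sub_apply, e2, e3]
  have h5 := sq_int_le (μ := μ) (f := fun p => ‖f p - g0 p‖) hd.int.norm (by
    have := (hd.mul hd).int (μ := μ)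
    refine this.norm.congr (Eventually.of_forall fun p => ?_)
    simp only [norm_mul]; ring)
  rw [dist_eq_norm] at hgε
  have h6 : (∫ p, ‖f p - g0 p‖ ∂μ) ^ 2 ≤ ε ^ 2 := by
    refine h5.trans ?_
    rw [← h4]
    exact pow_le_pow_left₀ (norm_nonneg _) hgε.le 2
  exact (abs_le_of_sq_le_sq' h6 hε.le).2

end Pool.Agent.W368.LX.DENS
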